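import Mathlib
import Pool.Agent.J4H39.N4
import Pool.Agent.J4H39.N5

set_option autoImplicit false

/-!
# Condensation of windows of consecutive integers under the Collatz map

A window `n + 1, …, n + H` of `H = ⌊N ^ θ⌋` consecutive integers, `0 < θ < 1`, with `n` in an arbitrary interval of
`N` integers (positive or negative), is followed under the shortcut Collatz map during `t = ⌊τ log₂ N⌋` steps.
Put `θ₀ = log (4/3) / (2 log 2) = 0.2075…`.

* If `θ/θ₀ < τ < 1/θ₀`, then for almost all `n` the window condenses: a bounded number of points carries the images of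
  almost all its elements.
* If `τ ≤ θ/θ₀`, then for almost all `n` every bounded set of points carries the images of a negligible part of the
  window only.
-/

namespace Pool.Agent.Results.MP_d02c56_nt.Condensation

open Finset

/-- The shortcut Collatz map on the integers. -/
def T (x : ℤ) : ℤ := if x % 2 = 0 then x / 2 else (3 * x + 1) / 2

/-- The critical exponent `log (4/3) / (2 log 2) = 0.2075…`. -/
noncomputable def θ₀ : ℝ := Real.log (4 / 3) / (2 * Real.log 2)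

/-- The number of steps `⌊τ log₂ N⌋`. -/
noncomputable def time (τ : ℝ) (N : ℕ) : ℕ := ⌊τ * Real.logb 2 N⌋₊

/-- The length `⌊N ^ θ⌋` of the window. -/
noncomputable def len (θ : ℝ) (N : ℕ) : ℕ := ⌊(N : ℝ) ^ θ⌋₊

/-- Number of the elements `n + h`, `1 ≤ h ≤ H`, of the window whose image after `t` steps lies in `V`. -/
def captured (t H : ℕ) (n : ℤ) (V : Finset ℤ) : ℕ := #{h ∈ Icc 1 H | T^[t] (n + (h : ℕ)) ∈ V}

theorem T_eq : T = Pool.Agent.J4H39.T := rfl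

theorem th0_eq : θ₀ = Pool.Agent.J4H39.th0 := by
  unfold θ₀ Pool.Agent.J4H39.th0 Pool.Agent.J4H39.mu2
  rw [Real.log_div (by norm_num) (by norm_num)]

theorem captured_add (t H : ℕ) (n : ℤ) (V : Finset ℤ) :
    (captured t H n V : ℝ) + (#{h ∈ Icc 1 H | T^[t] (n + ((h : ℕ) : ℤ)) ∉ V} : ℝ) = H := by
  unfold captured
  have h := card_filter_add_card_filter_not (s := Icc 1 H) (fun h => T^[t] (n + ((h : ℕ) : ℤ)) ∈ V)
  rw [Nat.card_Icc, Nat.add_sub_cancel] at h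
  exact_mod_cast h

theorem Ioc_eq (x : ℤ) (N : ℕ) : Ioc x (x + N) = Ico (x + 1) (x + 1 + N) := by
  ext n
  rw [mem_Ioc, mem_Ico]
  omega

open Classical in
/-- **Condensation of windows, with a sharp threshold at `τ = θ/θ₀`.** -/
theorem result (θ τ : ℝ) (hθ : 0 < θ) (hθ1 : θ < 1) :
    (θ / θ₀ < τ → τ < 1 / θ₀ → ∃ C : ℝ, ∀ ε : ℝ, 0 < ε → ε ≤ 1 → ∃ N₀ : ℕ, ∀ N ≥ N₀, ∀ x : ℤ,
      (#{n ∈ Ioc x (x + N) | ¬ ∃ V : Finset ℤ, (#V : ℝ) ≤ C / ε ^ 4 ∧
        (1 - ε) * len θ N ≤ captured (time τ N) (len θ N) n V} : ℝ) ≤ ε * N) ∧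
    (τ ≤ θ / θ₀ → ∀ (M : ℕ) (ε : ℝ), 0 < ε → ∃ N₀ : ℕ, ∀ N ≥ N₀, ∀ x : ℤ,
      (#{n ∈ Ioc x (x + N) | ∃ V : Finset ℤ, #V ≤ M ∧
        ε * len θ N < captured (time τ N) (len θ N) n V} : ℝ) ≤ ε * N) := by
  have hθ₀ : 0 < θ₀ := by rw [th0_eq]; exact Pool.Agent.J4H39.th0_pos
  constructor
  · intro h1 h2
    rw [div_lt_iff₀ hθ₀, th0_eq] at h1
    rw [lt_div_iff₀ hθ₀, th0_eq] at h2
    obtain ⟨C, _, hC⟩ := Pool.Agent.J4H39.collapse hθ hθ1 h1 h2
    refine ⟨C, fun ε hε hε1 => ?_⟩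
    obtain ⟨N₀, hN₀⟩ := Filter.eventually_atTop.1 (hC ε hε hε1)
    refine ⟨N₀, fun N hN x => ?_⟩
    refine le_trans ?_ (hN₀ N hN (x + 1))
    rw [Ioc_eq]
    have : #{n ∈ Ico (x + 1) (x + 1 + N) | ¬ ∃ V : Finset ℤ, (#V : ℝ) ≤ C / ε ^ 4 ∧
        (1 - ε) * len θ N ≤ captured (time τ N) (len θ N) n V} ≤
        #{n ∈ Ico (x + 1) (x + 1 + N) | ¬ ∃ V : Finset ℤ, (#V : ℝ) ≤ C / ε ^ 4 ∧
        (#{h ∈ Icc 1 (Pool.Agent.J4H39.HN θ N) |
          Pool.Agent.J4H39.T^[Pool.Agent.J4H39.tN τ N] (n + ((h : ℕ) : ℤ)) ∉ V} : ℝ) ≤ ε * Pool.Agent.J4H39.HN θ N} := by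
      apply card_le_card
      intro n hn
      rw [mem_filter] at hn ⊢
      refine ⟨hn.1, fun hh => hn.2 ?_⟩
      obtain ⟨V, hV1, hV2⟩ := hh
      refine ⟨V, hV1, ?_⟩
      have h3 := captured_add (time τ N) (len θ N) n V
      have h4 : (#{h ∈ Icc 1 (len θ N) | T^[time τ N] (n + ((h : ℕ) : ℤ)) ∉ V} : ℝ) ≤ ε * len θ N := by
        refine le_trans (le_of_eq ?_) hV2
        congr
      linarith
    exact_mod_cast this
  · intro h1 M ε hε
    rw [le_div_iff₀ hθ₀, th0_eq] at h1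
    obtain ⟨N₀, hN₀⟩ := Filter.eventually_atTop.1 (Pool.Agent.J4H39.no_condensation hθ hθ1 h1 M hε)
    refine ⟨N₀, fun N hN x => ?_⟩
    refine le_trans ?_ (hN₀ N hN (x + 1))
    rw [Ioc_eq]
    have : #{n ∈ Ico (x + 1) (x + 1 + N) | ∃ V : Finset ℤ, #V ≤ M ∧
        ε * len θ N < captured (time τ N) (len θ N) n V} ≤
        #{n ∈ Ico (x + 1) (x + 1 + N) | ∃ V : Finset ℤ, #V ≤ M ∧ ε * Pool.Agent.J4H39.HN θ N <
        (#{h ∈ Icc 1 (Pool.Agent.J4H39.HN θ N) |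
          Pool.Agent.J4H39.T^[Pool.Agent.J4H39.tN τ N] (n + ((h : ℕ) : ℤ)) ∈ V} : ℝ)} := by
      apply card_le_card
      intro n hn
      rw [mem_filter] at hn ⊢
      refine ⟨hn.1, ?_⟩
      obtain ⟨V, hV1, hV2⟩ := hn.2
      refine ⟨V, hV1, lt_of_lt_of_le hV2 (le_of_eq ?_)⟩
      unfold captured
      congr
    exact_mod_cast this

end Pool.Agent.Results.MP_d02c56_nt.Condensation
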