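import Mathlib
import Pool.Agent.R630.WD.Basic
import Pool.Agent.J4H26.PC.Main

/-!
# The pair correlations of the integers in wandering domains (or in one basin) of the entire `3x+1` function

Let `f₀` be the entire interpolation of the `3x+1` map of Letherman, Schleicher and Wood.  Call a set `R` of integers
invariant (for the sign `s`) if an integer `n` of sign `s` is in `R` if and only if `f₀ n` is.  The integers in wandering
domains form such a set, and so do the integers attracted to a given cycle.  Every invariant set has a natural density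
(`WanderingCount`, starting files).

We determine the distribution of every invariant set in short intervals to second order, in terms of its density `δ`
only: for `0 < θ < 1` and `H = ⌊N ^ θ⌋`,

* the proportion of the pairs `n`, `n + h`, `0 < s n ≤ N`, `1 ≤ h ≤ H`, of which exactly one is in `R`, tends to
  `2 δ (1 - δ) (2/π) arcsin √θ`;
* the mean square of the deviation of the proportion of `R` in `n + 1, …, n + H` from `δ` tends to
  `δ (1 - δ) (1 - (2/π) arcsin √θ)`.

Both limits are uniform in `R`.  So two integers whose orbits do not meet in their first `(1 - o(1)) log₂ N / θ₀` steps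
are of independent kinds.

The proof.  The orbits of two random points of the window behave like two random walks which are independent at first and
then coalesce (joint work with helper39, files `J4H39`); merged points have the same kind.  For the other pairs one shows
first that the density of `R` in almost all intervals of length `N / 2 ^ l` is `δ + o(1)` as `l → ∞`: by a transfer
operator argument the variance of the density in windows does not increase when the windows become longer by a factor
`2 ^ (c l)`, since the correlations along the forms `n`, `3 ^ D n` with `D` large compared with the square root of the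
height develop independently.  The pieces of the proof are due to helper26, helper39, helper79, helper45, helper94,
helper95, helper55 and helper8.
-/

set_option autoImplicit false

open Filter Topology Set

namespace Pool.Agent.Results.MP_071ec9_an.PairCorrelations

open Pool.Agent.H384R2.Fatou

/-- The entire function of Letherman, Schleicher and Wood; `f₀ n = T n` for every integer `n`, where
`T` is the `3x+1` function. -/
noncomputable def f₀ (z : ℂ) : ℂ :=
  z / 2 + (z + 1 / 2) * ((1 - Complex.cos (Real.pi * z)) / 2) +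
    1 / Real.pi * (1 / 2 - Complex.cos (Real.pi * z)) * Complex.sin (Real.pi * z)

/-- The integers whose Fatou component is a wandering domain of `f₀`. -/
def WanderingIntegers : Set ℤ := {n | IsWanderingDomain f₀ (FatouComponent f₀ n)}

/-- The integers `n` in the Fatou set whose component is not a wandering domain and is attracted to
the cycle of the integer `c`, of period (dividing) `p`: all points `z` of the component satisfy
`f₀^(k+pm)(z) → c` as `m → ∞`, for some `k`. -/
def BasinIntegers (c : ℤ) (p : ℕ) : Set ℤ :=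
  {n | (n : ℂ) ∈ FatouSet f₀ ∧ ¬ IsWanderingDomain f₀ (FatouComponent f₀ n) ∧
    ∃ k : ℕ, ∀ z ∈ FatouComponent f₀ n,
      Tendsto (fun m : ℕ => f₀^[k + p * m] z) atTop (𝓝 (c : ℂ))}

/-- An integer `n` of sign `s` is in `R` if and only if `f₀ n` is in `R`. -/
def Invariant (s : ℤ) (R : Set ℤ) : Prop := ∀ n m : ℤ, 0 < s * n → f₀ (n : ℂ) = m → (n ∈ R ↔ m ∈ R)

/-- `δ` is the natural density of `R` among the integers of sign `s`. -/
def HasDensity (s : ℤ) (R : Set ℤ) (δ : ℝ) : Prop :=
  Tendsto (fun N : ℕ => ({n : ℤ | 0 < s * n ∧ s * n ≤ N ∧ n ∈ R}.ncard : ℝ) / N) atTop (𝓝 δ)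

/-- The proportion of the pairs `(n, h)` with `0 < s n ≤ N` and `1 ≤ h ≤ H` for which exactly one of `n`, `n + h` is
in `R`. -/
noncomputable def differ (s : ℤ) (R : Set ℤ) (N H : ℕ) : ℝ :=
  ({p : ℤ × ℕ | (0 < s * p.1 ∧ s * p.1 ≤ N) ∧ (1 ≤ p.2 ∧ p.2 ≤ H) ∧ ¬ (p.1 ∈ R ↔ p.1 + p.2 ∈ R)}.ncard : ℝ) / (N * H)

/-- The proportion of `R` in `n + 1, …, n + H`. -/
noncomputable def share (R : Set ℤ) (H : ℕ) (n : ℤ) : ℝ := ({h : ℕ | (1 ≤ h ∧ h ≤ H) ∧ n + h ∈ R}.ncard : ℝ) / H

/-- The mean of the squares of `share R H n - δ`, for the integers `n = s m`, `1 ≤ m ≤ N`. -/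
noncomputable def variance (s : ℤ) (R : Set ℤ) (δ : ℝ) (N H : ℕ) : ℝ :=
  (∑ m ∈ Finset.Icc 1 N, (share R H (s * m) - δ) ^ 2) / N

theorem inv_iff (s : ℤ) (R : Set ℤ) : Invariant s R ↔ Pool.Agent.J4H26.PC.InvS s R := by
  have hf : ∀ n m : ℤ, f₀ (n : ℂ) = m ↔ Pool.Agent.J4H39.T n = m := by
    intro n m
    have h1 : f₀ (n : ℂ) = (Pool.Agent.H723R2.LSW.T n : ℂ) := Pool.Agent.H723R2.LSW.f₀_int n
    have h2 : Pool.Agent.H723R2.LSW.T n = Pool.Agent.J4H39.T n := rfl
    rw [h1, h2]
    exact_mod_cast Iff.rfl
  constructor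
  · intro h n hn
    exact h n _ hn ((hf n _).2 rfl)
  · intro h n m hn hnm
    rw [← (hf n m).1 hnm]
    exact h n hn

theorem dens_iff (s : ℤ) (R : Set ℤ) (δ : ℝ) : HasDensity s R δ ↔
    Tendsto (fun N : ℕ => Pool.Agent.J4H26.PC.ct s R N / N) atTop (nhds δ) := by
  unfold HasDensity Pool.Agent.J4H26.PC.ct
  have e : ∀ N : ℕ, {n : ℤ | 0 < s * n ∧ s * n ≤ N ∧ n ∈ R} = {n : ℤ | 0 < s * n ∧ ((s * n : ℤ) : ℝ) ≤ (N : ℝ) ∧ n ∈ R} := by
    intro N
    ext n
    have : s * n ≤ (N : ℤ) ↔ ((s * n : ℤ) : ℝ) ≤ (N : ℝ) := by exact_mod_cast Iff.rfl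
    simp only [mem_ofPred_eq, this]
  simp only [e]

/-- **The pair correlations and the variance of the invariant sets in short intervals.**  Let `0 < θ < 1` and `s = 1` or
`s = -1`.

* The set of the integers in wandering domains is invariant, and so is the set of the integers in the basin of any cycle
  of integers; every invariant set has a natural density among the integers of sign `s`.
* For every `ε > 0` there is `N₀` such that for all `N ≥ N₀` and every invariant set `R`, of density `δ` among the
  integers of sign `s`, with `H = ⌊N ^ θ⌋`: the proportion of the pairs `n`, `n + h`, `0 < s n ≤ N`, `1 ≤ h ≤ H`, of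
  which exactly one is in `R` is within `ε` of `2 δ (1 - δ) (2/π) arcsin √θ`, and the mean square of the deviation from
  `δ` of the proportion of `R` in `n + 1, …, n + H`, `0 < s n ≤ N`, is within `ε` of
  `δ (1 - δ) (1 - (2/π) arcsin √θ)`. -/
theorem result (θ : ℝ) (hθ : 0 < θ) (hθ1 : θ < 1) (s : ℤ) (hs : s = 1 ∨ s = -1) :
    (Invariant s WanderingIntegers ∧
      (∀ (c : ℤ) (p : ℕ), 0 < p → f₀^[p] (c : ℂ) = c → Invariant s (BasinIntegers c p)) ∧
      ∀ R : Set ℤ, Invariant s R → ∃ δ : ℝ, HasDensity s R δ) ∧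
    ∀ ε : ℝ, 0 < ε → ∃ N₀ : ℕ, ∀ N ≥ N₀, ∀ (R : Set ℤ) (δ : ℝ), Invariant s R → HasDensity s R δ →
      |differ s R N ⌊(N : ℝ) ^ θ⌋₊ - 2 * (δ * (1 - δ)) * (2 / Real.pi * Real.arcsin √θ)| ≤ ε ∧
      |variance s R δ N ⌊(N : ℝ) ^ θ⌋₊ - δ * (1 - δ) * (1 - 2 / Real.pi * Real.arcsin √θ)| ≤ ε := by
  refine ⟨⟨?_, ?_, ?_⟩, ?_⟩
  · rw [inv_iff]
    exact fun n _ => Pool.Agent.R630.WD.wn_inv n
  · intro c p hp hc
    rw [inv_iff]
    exact fun n _ => Pool.Agent.R630.WD.bn_inv hp hc n
  · intro R hR
    rw [inv_iff] at hR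
    obtain ⟨δ, h⟩ := Pool.Agent.J4H26.PC.main_dens s hs R hR
    exact ⟨δ, (dens_iff s R δ).2 h⟩
  · intro ε hε
    obtain ⟨N₁, h1⟩ := eventually_atTop.1 (Pool.Agent.J4H26.PC.main_DIF θ hθ hθ1 s hs ε hε)
    obtain ⟨N₂, h2⟩ := eventually_atTop.1 (Pool.Agent.J4H26.PC.main_VAR θ hθ hθ1 s hs ε hε)
    refine ⟨max N₁ N₂, fun N hN R δ hR hδ => ?_⟩
    rw [inv_iff] at hR
    rw [dens_iff] at hδ
    exact ⟨h1 N ((le_max_left _ _).trans hN) R hR δ hδ, h2 N ((le_max_right _ _).trans hN) R hR δ hδ⟩

end Pool.Agent.Results.MP_071ec9_an.PairCorrelations
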