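import Mathlib
import Pool.Agent.J4H39.SM.Fin
import Pool.Agent.J4H22.SM.Erf
import Pool.Agent.J4H45.SM.Sup
import Pool.Agent.J4H98.SM.Slo

/-!
# How often `f₀^t` maps nearly all of `N ^ θ` consecutive integers to one integer

Let `f₀` be the entire interpolation of the `3x+1` map of Letherman, Schleicher and Wood, let `0 < θ < 1`,
`H = ⌊N ^ θ⌋`, `t = ⌊τ log₂ N⌋` with `θ/θ₀ < τ < 1/θ₀`, `θ₀ = log (4/3) / (2 log 2)`.  The number of the `n` in an interval
of `N` integers, for which `f₀^t` maps all but at most `ε H` of the integers `n + 1, …, n + H` to one and the same integer,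
is `ε ^ (2 ρ + o(1)) N` as `N → ∞` and then `ε → 0`, with `ρ = θ / (τ θ₀ - θ)`.

Consequently, for every `θ < 1`, for at least `ε ^ (2 θ / (1 - θ) + o(1)) N` of the `n` all but at most `ε N ^ θ` of the
integers `n + 1, …, n + ⌊N ^ θ⌋` are of the same kind: they all lie in wandering domains of `f₀`, or they all lie in the
basin of one and the same cycle of integers.

The transfer to coalescing random walks is that of `NumberOfDomains`; the two bounds for the walks are due to helper45 and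
helper98, with helper22.
-/

set_option autoImplicit false

open Filter Topology Set

namespace Pool.Agent.Results.MP_071ec9_an.PureWindows

open Pool.Agent.H384R2.Fatou

/-- The entire function of Letherman, Schleicher and Wood; `f₀ n = T n` for every integer `n`, where
`T` is the `3x+1` function. -/
noncomputable def f₀ (z : ℂ) : ℂ :=
  z / 2 + (z + 1 / 2) * ((1 - Complex.cos (Real.pi * z)) / 2) +
    1 / Real.pi * (1 / 2 - Complex.cos (Real.pi * z)) * Complex.sin (Real.pi * z)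

/-- The integers whose Fatou component is a wandering domain of `f₀`. -/
def WanderingIntegers : Set ℤ := {n | IsWanderingDomain f₀ (FatouComponent f₀ n)}

/-- The integers `n` in the Fatou set whose component is not a wandering domain and is attracted to
the cycle of the integer `c`, of period (dividing) `p`: all points `z` of the component satisfy
`f₀^(k+pm)(z) → c` as `m → ∞`, for some `k`. -/
def BasinIntegers (c : ℤ) (p : ℕ) : Set ℤ :=
  {n | (n : ℂ) ∈ FatouSet f₀ ∧ ¬ IsWanderingDomain f₀ (FatouComponent f₀ n) ∧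
    ∃ k : ℕ, ∀ z ∈ FatouComponent f₀ n,
      Tendsto (fun m : ℕ => f₀^[k + p * m] z) atTop (𝓝 (c : ℂ))}

/-- `R` is the set of the integers in wandering domains, or the set of the integers attracted to the cycle of some
integer. -/
def Kind (R : Set ℤ) : Prop :=
  R = WanderingIntegers ∨ ∃ (c : ℤ) (p : ℕ), 0 < p ∧ f₀^[p] (c : ℂ) = c ∧ R = BasinIntegers c p

/-- `f₀^t` maps all but at most `ε H` of the integers `n + 1, …, n + H` to one integer `w`. -/
def Single (ε : ℝ) (t H : ℕ) (n : ℤ) : Prop :=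
  ∃ w : ℤ, ({h : ℕ | 1 ≤ h ∧ h ≤ H ∧ f₀^[t] ((n + h : ℤ) : ℂ) ≠ (w : ℂ)}.ncard : ℝ) ≤ ε * H

/-- All but at most `ε H` of the integers `n + 1, …, n + H` are of the same kind. -/
def Pure (ε : ℝ) (H : ℕ) (n : ℤ) : Prop :=
  ∃ R : Set ℤ, Kind R ∧ ({h : ℕ | 1 ≤ h ∧ h ≤ H ∧ n + h ∉ R}.ncard : ℝ) ≤ ε * H

/-- The number of the integers `n`, `x ≤ n < x + N`, with the property `P`. -/
noncomputable def count (P : ℤ → Prop) (x : ℤ) (N : ℕ) : ℕ := {n : ℤ | x ≤ n ∧ n < x + N ∧ P n}.ncard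

/-- The critical exponent `log (4/3) / (2 log 2) = 0.2075…`. -/
noncomputable def θ₀ : ℝ := Real.log (4 / 3) / (2 * Real.log 2)

theorem th0_eq : θ₀ = Pool.Agent.J4H39.th0 := by
  unfold θ₀ Pool.Agent.J4H39.th0 Pool.Agent.J4H39.mu2
  rw [Real.log_div (by norm_num) (by norm_num)]

/-- Let `0 < θ < 1` and `η > 0`.

(1) Let `θ/θ₀ < τ < 1/θ₀` and `ρ = θ / (τ θ₀ - θ)`.  For all small `ε > 0`, all `N ≥ N₀ (ε)` and all integers `x`, the
number of the `n` with `x ≤ n < x + N` for which `f₀^t`, `t = ⌊τ log₂ N⌋`, maps all but at most `ε H` of the integers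
`n + 1, …, n + H`, `H = ⌊N ^ θ⌋`, to one integer is between `ε ^ (2 ρ + η) N` and `ε ^ (2 ρ - η) N`.

(2) For all small `ε > 0`, all `N ≥ N₀ (ε)` and all integers `x`, for at least `ε ^ (2 θ / (1 - θ) + η) N` of the `n` with
`x ≤ n < x + N` all but at most `ε H` of the integers `n + 1, …, n + H`, `H = ⌊N ^ θ⌋`, lie in wandering domains, or all
but at most `ε H` of them lie in the basin of the cycle of one integer. -/
theorem result (θ η : ℝ) (hθ : 0 < θ) (hθ1 : θ < 1) (hη : 0 < η) :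
    (∀ τ : ℝ, θ / θ₀ < τ → τ < 1 / θ₀ → ∃ ε₀ : ℝ, 0 < ε₀ ∧ ∀ ε : ℝ, 0 < ε → ε ≤ ε₀ → ∃ N₀ : ℕ, ∀ N ≥ N₀, ∀ x : ℤ,
      ε ^ (2 * (θ / (τ * θ₀ - θ)) + η) * N ≤ count (Single ε ⌊τ * Real.logb 2 N⌋₊ ⌊(N : ℝ) ^ θ⌋₊) x N ∧
      count (Single ε ⌊τ * Real.logb 2 N⌋₊ ⌊(N : ℝ) ^ θ⌋₊) x N ≤ ε ^ (2 * (θ / (τ * θ₀ - θ)) - η) * N) ∧
    ∃ ε₀ : ℝ, 0 < ε₀ ∧ ∀ ε : ℝ, 0 < ε → ε ≤ ε₀ → ∃ N₀ : ℕ, ∀ N ≥ N₀, ∀ x : ℤ,
      ε ^ (2 * θ / (1 - θ) + η) * N ≤ count (Pure ε ⌊(N : ℝ) ^ θ⌋₊) x N := by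
  have hθ₀ : 0 < θ₀ := by rw [th0_eq]; exact Pool.Agent.J4H39.th0_pos
  have hS := Pool.Agent.J4H45.SM.t_SUP Pool.Agent.J4H22.SM.t_ERF
  have hL := Pool.Agent.J4H98.SM.t_SLO Pool.Agent.J4H22.SM.t_ERF
  refine ⟨fun τ hτ hτ1 => ?_, ?_⟩
  · rw [div_lt_iff₀ hθ₀] at hτ
    rw [lt_div_iff₀ hθ₀] at hτ1
    rw [th0_eq] at hτ hτ1 ⊢
    exact Pool.Agent.J4H39.SM.two_sided hS hL Pool.Agent.J4H22.SM.t_P1 Pool.Agent.J4H22.SM.t_P2 hθ hθ1 hτ hτ1 hη
  · exact Pool.Agent.J4H39.SM.pure_lo hS hL Pool.Agent.J4H22.SM.t_P1 Pool.Agent.J4H22.SM.t_P2 hθ hθ1 hη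

end Pool.Agent.Results.MP_071ec9_an.PureWindows
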